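import Pool.Agent.H482R3.EA.Stm

namespace Pool.Agent.H347R.EA.CP

variable {α : Type*} [Primcodable α]

theorem cp_and {p q : α → Prop} (hp : ComputablePred p) (hq : ComputablePred q) :
    ComputablePred (fun a => p a ∧ q a) := by
  obtain ⟨f, hf, rfl⟩ := ComputablePred.computable_iff.1 hp
  obtain ⟨g, hg, rfl⟩ := ComputablePred.computable_iff.1 hq
  refine ComputablePred.computable_iff.2 ⟨fun a => f a && g a, ?_, ?_⟩
  · exact (Primrec.and.to_comp : Computable₂ and).comp hf hg
  · funext a; simp

theorem cp_or {p q : α → Prop} (hp : ComputablePred p) (hq : ComputablePred q) :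
    ComputablePred (fun a => p a ∨ q a) := by
  obtain ⟨f, hf, rfl⟩ := ComputablePred.computable_iff.1 hp
  obtain ⟨g, hg, rfl⟩ := ComputablePred.computable_iff.1 hq
  refine ComputablePred.computable_iff.2 ⟨fun a => f a || g a, ?_, ?_⟩
  · exact (Primrec.or.to_comp : Computable₂ or).comp hf hg
  · funext a; simp

theorem cp_not {p : α → Prop} (hp : ComputablePred p) :
    ComputablePred (fun a => ¬ p a) := by
  obtain ⟨f, hf, rfl⟩ := ComputablePred.computable_iff.1 hp
  refine ComputablePred.computable_iff.2 ⟨fun a => !(f a), ?_, ?_⟩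
  · exact Primrec.not.to_comp.comp hf
  · funext a; simp

theorem cp_const (b : Prop) : ComputablePred (fun _ : α => b) := by
  classical
  refine ComputablePred.computable_iff.2 ⟨fun a => decide b, Computable.const _, ?_⟩
  funext a; simp

theorem cp_comp {β : Type*} [Primcodable β] {p : β → Prop} (hp : ComputablePred p) {f : α → β} (hf : Computable f) :
    ComputablePred (fun a => p (f a)) := by
  obtain ⟨g, hg, rfl⟩ := ComputablePred.computable_iff.1 hp
  exact ComputablePred.computable_iff.2 ⟨fun a => g (f a), hg.comp hf, rfl⟩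

theorem cp_all {n : ℕ} {p : Fin n → α → Prop} (hp : ∀ i, ComputablePred (p i)) :
    ComputablePred (fun a => ∀ i, p i a) := by
  induction n with
  | zero =>
    have : (fun a : α => ∀ i : Fin 0, p i a) = fun _ => True := by
      funext a; simp
    rw [this]; exact cp_const _
  | succ n ih =>
    have : (fun a : α => ∀ i, p i a) = fun a => p 0 a ∧ ∀ i : Fin n, p i.succ a := by
      funext a; simp [Fin.forall_fin_succ]
    rw [this]
    exact cp_and (hp 0) (ih fun i => hp i.succ)

theorem cp_ex {n : ℕ} {p : Fin n → α → Prop} (hp : ∀ i, ComputablePred (p i)) :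
    ComputablePred (fun a => ∃ i, p i a) := by
  induction n with
  | zero =>
    have : (fun a : α => ∃ i : Fin 0, p i a) = fun _ => False := by
      funext a; simp
    rw [this]; exact cp_const _
  | succ n ih =>
    have : (fun a : α => ∃ i, p i a) = fun a => p 0 a ∨ ∃ i : Fin n, p i.succ a := by
      funext a; simp [Fin.exists_fin_succ]
    rw [this]
    exact cp_or (hp 0) (ih fun i => hp i.succ)

end Pool.Agent.H347R.EA.CP

namespace Pool.Agent.H347R.EA

/-- S_CP : closure properties of computable predicates. -/
theorem t_CP : Pool.Agent.H482R3.EA.S_CP := by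
  intro α inst n
  exact ⟨fun p q hp hq => CP.cp_and hp hq, fun p q hp hq => CP.cp_or hp hq,
    fun p hp => CP.cp_all hp, fun p hp => CP.cp_ex hp⟩

end Pool.Agent.H347R.EA
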